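import Mathlib

/-!
# The combinatorial part: families of subsets of the eight terminals

The index `(true, i)` is the terminal `w i`, the index `(false, i)` the terminal `c i`.
-/

set_option autoImplicit false

namespace Pool.Agent.U331.ST

open Finset

/-- The signs of the first coordinates of the corners. -/
def sx : Fin 4 → ℤ := ![-1, -1, 1, 1]

/-- The signs of the second coordinates of the corners. -/
def sy : Fin 4 → ℤ := ![1, -1, 1, -1]

/-- Sum of the signs over the indices of the kind `k`. -/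
def sm (f : Fin 4 → ℤ) (k : Bool) (A : Finset (Bool × Fin 4)) : ℤ :=
  ∑ q ∈ A, if q.1 = k then f q.2 else 0

/-- `A` is good for the first calibration. -/
def GoodS (A : Finset (Bool × Fin 4)) : Prop :=
  sm sx true A ^ 2 + 3 * sm sy true A ^ 2 ≤ 4

instance : DecidablePred GoodS := fun A => by unfold GoodS; infer_instance

/-- rational part of four times the square of the norm -/
def PP (a b a' b' : ℤ) : ℤ := a ^ 2 - 2 * a * a' + 4 * a' ^ 2 + 3 * b ^ 2 - 6 * b * b' + 4 * b' ^ 2

/-- irrational part of four times the square of the norm -/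
def QQ (a b a' b' : ℤ) : ℤ := 2 * a * a' - 2 * a' ^ 2 + 2 * b * b' - 2 * b' ^ 2

/-- `A` is good for the second calibration. -/
def GoodT (A : Finset (Bool × Fin 4)) : Prop :=
  let P := PP (sm sx true A) (sm sy true A) (sm sx false A) (sm sy false A)
  let Q := QQ (sm sx true A) (sm sy true A) (sm sx false A) (sm sy false A)
  (Q ≤ 0 ∧ 10 * P + 17 * Q ≤ 40) ∨ (0 ≤ Q ∧ 100 * P + 174 * Q ≤ 400)

instance : DecidablePred GoodT := fun A => by unfold GoodT; infer_instance

/-- The corners represented in `A`. -/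
def cor (A : Finset (Bool × Fin 4)) : Finset (Fin 4) := A.image Prod.snd

lemma badS_cases : ∀ A : Finset (Bool × Fin 4), ¬ GoodS A →
    ((true, 0) ∈ A ∧ (true, 2) ∈ A ∧ (true, 1) ∉ A ∧ (true, 3) ∉ A) ∨
    ((true, 0) ∉ A ∧ (true, 2) ∉ A ∧ (true, 1) ∈ A ∧ (true, 3) ∈ A) := by
  decide +kernel

/-- `B` crosses the splitting of the `w i` into the upper and the lower ones. -/
def Cross (B : Finset (Bool × Fin 4)) : Prop :=
  ((true, 0) ∈ B ∧ (true, 1) ∈ B ∧ (true, 2) ∉ B ∧ (true, 3) ∉ B) ∨
  ((true, 0) ∉ B ∧ (true, 1) ∉ B ∧ (true, 2) ∈ B ∧ (true, 3) ∈ B) ∨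
  ((true, 0) ∈ B ∧ (true, 3) ∈ B ∧ (true, 1) ∉ B ∧ (true, 2) ∉ B) ∨
  ((true, 0) ∉ B ∧ (true, 3) ∉ B ∧ (true, 1) ∈ B ∧ (true, 2) ∈ B)

instance : DecidablePred Cross := fun B => by unfold Cross; infer_instance

/-- `B` contains terminals near three corners, its complement near two, or conversely. -/
def PT (B : Finset (Bool × Fin 4)) : Prop :=
  (3 ≤ (cor B).card ∧ 2 ≤ (cor Bᶜ).card) ∨ (3 ≤ (cor Bᶜ).card ∧ 2 ≤ (cor B).card)

instance : DecidablePred PT := fun B => by unfold PT; infer_instance

lemma badT_cases : ∀ B : Finset (Bool × Fin 4), ¬ GoodT B → PT B ∨ Cross B := by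
  decide +kernel

lemma pair_triple {A B : Finset (Bool × Fin 4)} (hA : ¬ GoodS A) (hB : ¬ GoodT B)
    (h : A ⊆ B ∨ B ⊆ A ∨ Disjoint A B) :
    PT B := by
  rcases badT_cases B hB with h1 | h1
  · exact h1
  · exfalso
    unfold Cross at h1
    rcases h with h | h | h
    · have k0 := @h (true, 0)
      have k1 := @h (true, 1)
      have k2 := @h (true, 2)
      have k3 := @h (true, 3)
      rcases badS_cases A hA with h2 | h2 <;> tauto
    · have k0 := @h (true, 0)
      have k1 := @h (true, 1)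
      have k2 := @h (true, 2)
      have k3 := @h (true, 3)
      rcases badS_cases A hA with h2 | h2 <;> tauto
    · rw [Finset.disjoint_left] at h
      have k0 := @h (true, 0)
      have k1 := @h (true, 1)
      have k2 := @h (true, 2)
      have k3 := @h (true, 3)
      rcases badS_cases A hA with h2 | h2 <;> tauto

lemma three_corners : ∀ C : Finset (Fin 4), 3 ≤ C.card → ∃ m, ∀ c, c ≠ m → c ∈ C := by
  decide +kernel

lemma two_corners {C : Finset (Fin 4)} (h : 2 ≤ C.card) : ∃ c ∈ C, ∃ c' ∈ C, c ≠ c' := by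
  obtain ⟨a, b, ha, hb, hab⟩ := Finset.one_lt_card_iff.1 h
  exact ⟨a, ha, b, hb, hab⟩

end Pool.Agent.U331.ST
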