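import Mathlib

/-!
# Finite rooted trees with straight edges, and calibrations

`Tr p x I F L`: there is a tree with root `x`, with leaves `p i` (`i ∈ I`, each index occurring
exactly once) and total length `L`, such that `F` is the family of the sets of the leaves of its
branches.
-/

set_option autoImplicit false

namespace Pool.Agent.U331.ST

open Finset
open scoped RealInnerProductSpace

variable {ι : Type*} [DecidableEq ι]

/-- Rooted trees with leaves `p i`. -/
inductive Tr {E : Type*} [MetricSpace E] (p : ι → E) :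
    E → Finset ι → Set (Finset ι) → ℝ → Prop
  | leaf (x : E) (i : ι) : Tr p x {i} {{i}} (dist x (p i))
  | node (x : E) {I J : Finset ι} {F G : Set (Finset ι)} {L M : ℝ} :
      Tr p x I F L → Tr p x J G M → Disjoint I J → Tr p x (I ∪ J) (F ∪ G) (L + M)
  | move (x y : E) {I : Finset ι} {F : Set (Finset ι)} {L : ℝ} :
      Tr p y I F L → Tr p x I (insert I F) (dist x y + L)

section metric

variable {E : Type*} [MetricSpace E] {p : ι → E}

lemma Tr.nonempty {x : E} {I : Finset ι} {F : Set (Finset ι)} {L : ℝ} (h : Tr p x I F L) :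
    I.Nonempty := by
  induction h with
  | leaf x i => exact singleton_nonempty i
  | node x _ _ _ ih _ => exact ih.mono subset_union_left
  | move x y _ ih => exact ih

lemma Tr.nonneg {x : E} {I : Finset ι} {F : Set (Finset ι)} {L : ℝ} (h : Tr p x I F L) :
    0 ≤ L := by
  induction h with
  | leaf x i => exact dist_nonneg
  | node x _ _ _ ih1 ih2 => exact add_nonneg ih1 ih2
  | move x y _ ih => exact add_nonneg dist_nonneg ih

lemma Tr.sub {x : E} {I : Finset ι} {F : Set (Finset ι)} {L : ℝ} (h : Tr p x I F L) :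
    ∀ A ∈ F, A ⊆ I := by
  induction h with
  | leaf x i =>
    intro A hA
    rw [Set.mem_singleton_iff.1 hA]
  | node x _ _ _ ih1 ih2 =>
    intro A hA
    rcases hA with hA | hA
    · exact (ih1 A hA).trans subset_union_left
    · exact (ih2 A hA).trans subset_union_right
  | move x y _ ih =>
    intro A hA
    rcases hA with rfl | hA
    · exact subset_rfl
    · exact ih A hA

/-- The family of the branches is laminar. -/
lemma Tr.laminar {x : E} {I : Finset ι} {F : Set (Finset ι)} {L : ℝ} (h : Tr p x I F L) :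
    ∀ A ∈ F, ∀ B ∈ F, A ⊆ B ∨ B ⊆ A ∨ Disjoint A B := by
  induction h with
  | leaf x i =>
    intro A hA B hB
    left
    rw [Set.mem_singleton_iff.1 hA, Set.mem_singleton_iff.1 hB]
  | node x h1 h2 hd ih1 ih2 =>
    intro A hA B hB
    rcases hA with hA | hA <;> rcases hB with hB | hB
    · exact ih1 A hA B hB
    · exact Or.inr (Or.inr (hd.mono (h1.sub A hA) (h2.sub B hB)))
    · exact Or.inr (Or.inr (hd.mono (h1.sub B hB) (h2.sub A hA)).symm)
    · exact ih2 A hA B hB
  | move x y h1 ih =>
    intro A hA B hB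
    rcases hA with rfl | hA <;> rcases hB with rfl | hB
    · exact Or.inl subset_rfl
    · exact Or.inr (Or.inl (h1.sub B hB))
    · exact Or.inl (h1.sub A hA)
    · exact ih A hA B hB

/-- Star-shaped trees. -/
lemma exists_star (p : ι → E) (z : E) (D : ℝ) (I : Finset ι) (hI : I.Nonempty)
    (h : ∀ i ∈ I, dist z (p i) ≤ D) : ∃ F L, Tr p z I F L ∧ L ≤ I.card * D := by
  induction hI using Finset.Nonempty.cons_induction with
  | singleton i =>
    exact ⟨_, _, Tr.leaf z i, by simpa using h i (mem_singleton_self i)⟩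
  | cons i s hi hs ih =>
    obtain ⟨F, L, hT, hL⟩ := ih fun j hj => h j (mem_cons.2 (Or.inr hj))
    have h1 := Tr.node z (Tr.leaf z i) hT (disjoint_singleton_left.2 hi)
    rw [cons_eq_insert, insert_eq]
    refine ⟨_, _, h1, ?_⟩
    rw [card_union_of_disjoint (disjoint_singleton_left.2 hi), card_singleton]
    have := h i (mem_cons_self i s)
    push_cast
    linarith

/-- Changing positions of points which are not leaves. -/
lemma Tr.congr {q : ι → E} {x : E} {I : Finset ι} {F : Set (Finset ι)} {L : ℝ}
    (h : Tr q x I F L) (hpq : ∀ i ∈ I, q i = p i) : Tr p x I F L := by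
  induction h with
  | leaf x i =>
    rw [hpq i (mem_singleton_self i)]
    exact Tr.leaf x i
  | node x _ _ hd ih1 ih2 =>
    exact Tr.node x (ih1 fun i hi => hpq i (mem_union_left _ hi))
      (ih2 fun i hi => hpq i (mem_union_right _ hi)) hd
  | move x y _ ih => exact Tr.move x y (ih hpq)

/-- Substitution of a tree for a leaf. -/
lemma Tr.subst {q : ι → E} {a : ι} {B : Finset ι} {G : Set (Finset ι)} {M : ℝ}
    (hB : Tr p (q a) B G M) {x : E} {I : Finset ι} {F : Set (Finset ι)} {L : ℝ}
    (h : Tr q x I F L) (ha : a ∈ I) (hpq : ∀ i ∈ I, i ≠ a → q i = p i)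
    (hdis : ∀ i ∈ I, i ≠ a → i ∉ B) : ∃ F', Tr p x (I.erase a ∪ B) F' (L + M) := by
  induction h with
  | leaf x i =>
    rw [mem_singleton] at ha
    subst ha
    rw [erase_singleton, empty_union]
    exact ⟨_, Tr.move x _ hB⟩
  | @node x I J F G' L L' h1 h2 hd ih1 ih2 =>
    rcases mem_union.1 ha with h | h
    · have haJ : a ∉ J := fun hJ => (Finset.disjoint_left.1 hd) h hJ
      obtain ⟨F', hF'⟩ := ih1 h (fun i hi => hpq i (mem_union_left _ hi))
        (fun i hi => hdis i (mem_union_left _ hi))
      have h2' : Tr p x J G' L' := h2.congr fun i hi =>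
        hpq i (mem_union_right _ hi) (fun e => haJ (e ▸ hi))
      have hd' : Disjoint (I.erase a ∪ B) J := by
        rw [disjoint_union_left]
        refine ⟨hd.mono_left (erase_subset _ _), ?_⟩
        rw [Finset.disjoint_right]
        exact fun i hi => hdis i (mem_union_right _ hi) (fun e => haJ (e ▸ hi))
      have e : (I ∪ J).erase a ∪ B = (I.erase a ∪ B) ∪ J := by
        rw [erase_union_distrib, erase_eq_of_notMem haJ, union_assoc, union_comm J B,
          ← union_assoc]
      rw [e, show L + L' + M = (L + M) + L' by ring]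
      exact ⟨_, Tr.node x hF' h2' hd'⟩
    · have haI : a ∉ I := fun hI => (Finset.disjoint_left.1 hd) hI h
      obtain ⟨F', hF'⟩ := ih2 h (fun i hi => hpq i (mem_union_right _ hi))
        (fun i hi => hdis i (mem_union_right _ hi))
      have h1' : Tr p x I F L := h1.congr fun i hi =>
        hpq i (mem_union_left _ hi) (fun e => haI (e ▸ hi))
      have hd' : Disjoint I (J.erase a ∪ B) := by
        rw [disjoint_union_right]
        refine ⟨hd.mono_right (erase_subset _ _), ?_⟩
        rw [Finset.disjoint_left]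
        exact fun i hi => hdis i (mem_union_left _ hi) (fun e => haI (e ▸ hi))
      have e : (I ∪ J).erase a ∪ B = I ∪ (J.erase a ∪ B) := by
        rw [erase_union_distrib, erase_eq_of_notMem haI, union_assoc]
      rw [e, show L + L' + M = L + (L' + M) by ring]
      exact ⟨_, Tr.node x h1' hF' hd'⟩
  | move x y _ ih =>
    obtain ⟨F', hF'⟩ := ih ha hpq hdis
    rw [add_assoc]
    exact ⟨_, Tr.move x y hF'⟩

/-- Sets of indices which are connected with respect to the intersection graph of `U`. -/
inductive Conn {κ : Type*} [DecidableEq κ] (U : κ → Set E) (r : κ) : Finset κ → Prop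
  | base : Conn U r {r}
  | step {S : Finset κ} {j k : κ} : Conn U r S → k ∉ S → j ∈ S → (U j ∩ U k).Nonempty →
      Conn U r (insert k S)

lemma exists_tree {κ : Type*} [DecidableEq κ] {U : κ → Set E} {r : κ} {D : κ → ℝ} {δ : ℝ}
    (hD : ∀ k, ∀ x ∈ U k, ∀ y ∈ U k, dist x y ≤ D k) (hD0 : ∀ k, 0 ≤ D k) (hDδ : ∀ k, D k ≤ δ)
    {S : Finset κ} (hS : Conn U r S) : ∀ (p : ι → E) (c : ι → κ) (I : Finset ι), I.Nonempty →
      (∀ i ∈ I, c i ∈ S ∧ p i ∈ U (c i)) → ∀ z ∈ U r,
      ∃ F L, Tr p z I F L ∧ L ≤ ∑ k ∈ S, D k + ((I.card : ℝ) - 1) * δ := by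
  induction hS with
  | base =>
    intro p c I hI hc z hz
    obtain ⟨F, L, hT, hL⟩ := exists_star p z (D r) I hI fun i hi => by
      obtain ⟨h1, h2⟩ := hc i hi
      rw [mem_singleton.1 h1] at h2
      exact hD r z hz _ h2
    refine ⟨F, L, hT, hL.trans ?_⟩
    rw [sum_singleton]
    have h1 : (1 : ℝ) ≤ I.card := by exact_mod_cast hI.card_pos
    nlinarith [hDδ r, hD0 r]
  | @step S j k hS hk hj hjk ih =>
    intro p c I hI hc z hz
    rw [sum_insert hk]
    by_cases hne : (I.filter fun i => c i = k).Nonempty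
    · obtain ⟨a, ha⟩ := hne
      obtain ⟨haI, hak⟩ := mem_filter.1 ha
      obtain ⟨w, hwj, hwk⟩ := hjk
      set B := I.filter fun i => c i = k with hB
      obtain ⟨G, M, hT, hM⟩ := exists_star p w (D k) B ⟨a, ha⟩ fun i hi => by
        obtain ⟨h1, h2⟩ := mem_filter.1 hi
        have h3 := (hc i h1).2
        rw [h2] at h3
        exact hD k w hwk _ h3
      set q : ι → E := fun i => if i = a then w else p i with hq
      set c' : ι → κ := fun i => if i = a then j else c i with hc'
      set I' : Finset ι := insert a (I \ B) with hI'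
      have hqa : q a = w := by simp [hq]
      have haB : a ∉ I \ B := fun h => (mem_sdiff.1 h).2 ha
      obtain ⟨F, L, hT', hL⟩ := ih q c' I' (insert_nonempty _ _) (by
        intro i hi
        by_cases hia : i = a
        · subst hia
          simp only [hc', hq, if_true]
          exact ⟨hj, hwj⟩
        · have hi' : i ∈ I \ B := (mem_insert.1 hi).resolve_left hia
          obtain ⟨h1, h2⟩ := mem_sdiff.1 hi'
          obtain ⟨h3, h4⟩ := hc i h1
          simp only [hc', hq, if_neg hia]
          refine ⟨(mem_insert.1 h3).resolve_left fun h5 => h2 ?_, h4⟩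
          rw [hB]
          exact mem_filter.2 ⟨h1, h5⟩) z hz
      obtain ⟨F', hF'⟩ := Tr.subst (p := p) (q := q) (a := a) (by rw [hqa]; exact hT) hT'
        (mem_insert_self _ _) (fun i hi hia => by simp only [hq, if_neg hia])
        (fun i hi hia => (mem_sdiff.1 ((mem_insert.1 hi).resolve_left hia)).2)
      have e : I'.erase a ∪ B = I := by
        rw [hI', erase_insert haB]
        exact sdiff_union_of_subset (filter_subset _ _)
      rw [e] at hF'
      refine ⟨F', _, hF', ?_⟩
      have hcard : (I'.card : ℝ) = I.card - B.card + 1 := by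
        rw [hI', card_insert_of_notMem haB]
        have := card_sdiff_add_card_eq_card (s := B) (t := I) (filter_subset _ _)
        have h2 : ((I \ B).card : ℝ) + B.card = I.card := by exact_mod_cast this
        push_cast
        linarith
      have hB1 : (1 : ℝ) ≤ B.card := by
        have : 0 < B.card := card_pos.2 ⟨a, ha⟩
        exact_mod_cast this
      have h1 : (B.card : ℝ) * D k ≤ D k + (B.card - 1) * δ := by
        nlinarith [hDδ k, hD0 k]
      rw [hcard] at hL
      nlinarith [hL, hM, h1]
    · have hno : ∀ i ∈ I, c i ≠ k := fun i hi h => hne ⟨i, mem_filter.2 ⟨hi, h⟩⟩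
      obtain ⟨F, L, hT, hL⟩ := ih p c I hI (fun i hi =>
        ⟨(mem_insert.1 (hc i hi).1).resolve_left (hno i hi), (hc i hi).2⟩) z hz
      exact ⟨F, L, hT, by linarith [hD0 k]⟩

end metric

section inner

variable {E : Type*} [NormedAddCommGroup E] [InnerProductSpace ℝ E] {p : ι → E}

/-- **Calibrations.** -/
lemma Tr.calibrate {x : E} {I : Finset ι} {F : Set (Finset ι)} {L : ℝ} (h : Tr p x I F L)
    (ω : ι → E) (hω : ∀ A ∈ F, ‖∑ i ∈ A, ω i‖ ≤ 1) : ∑ i ∈ I, ⟪ω i, p i - x⟫ ≤ L := by
  have key : ∀ (v u : E), ‖v‖ ≤ 1 → ⟪v, u⟫ ≤ ‖u‖ := fun v u hv =>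
    (real_inner_le_norm v u).trans (mul_le_of_le_one_left (norm_nonneg _) hv)
  induction h with
  | leaf x i =>
    have h1 := hω {i} rfl
    rw [sum_singleton] at h1 ⊢
    rw [dist_eq_norm, norm_sub_rev]
    exact key _ _ h1
  | node x _ _ hd ih1 ih2 =>
    rw [sum_union hd]
    exact add_le_add (ih1 fun A hA => hω A (Or.inl hA)) (ih2 fun A hA => hω A (Or.inr hA))
  | @move x y I F L _ ih =>
    have h1 := hω I (Set.mem_insert _ _)
    have h2 := ih fun A hA => hω A (Set.mem_insert_of_mem _ hA)
    have h3 : ∑ i ∈ I, ⟪ω i, p i - x⟫ = ⟪∑ i ∈ I, ω i, y - x⟫ + ∑ i ∈ I, ⟪ω i, p i - y⟫ := by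
      rw [sum_inner, ← sum_add_distrib]
      refine sum_congr rfl fun i _ => ?_
      rw [← inner_add_right]
      congr 1
      abel
    rw [h3]
    refine add_le_add ?_ h2
    rw [dist_eq_norm, norm_sub_rev]
    exact key _ _ h1

end inner

end Pool.Agent.U331.ST
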