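import Mathlib
import Pool.Agent.U331.ST.Tree

/-!
# Reduction of compact connected sets of finite length to finite trees
-/

set_option autoImplicit false

namespace Pool.Agent.U331.ST

open Finset MeasureTheory Metric
open scoped ENNReal

variable {E : Type*} [MetricSpace E] [MeasurableSpace E] [BorelSpace E]

lemma exists_cover {W : Set E} (hW : IsCompact W) (hfin : μH[1] W ≠ ⊤) {δ ε : ℝ} (hδ : 0 < δ)
    (hε : 0 < ε) : ∃ (K : Finset ℕ) (U : ℕ → Set E) (D : ℕ → ℝ), (∀ k, IsOpen (U k)) ∧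
      (W ⊆ ⋃ k ∈ K, U k) ∧ (∀ k ∈ K, (U k ∩ W).Nonempty) ∧
      (∀ k, ∀ x ∈ U k, ∀ y ∈ U k, dist x y ≤ D k) ∧ (∀ k, 0 ≤ D k) ∧ (∀ k, D k ≤ δ) ∧
      ∑ k ∈ K, D k ≤ (μH[1] W).toReal + ε := by
  classical
  have h1 : (⨅ (t : ℕ → Set E) (_ : W ⊆ ⋃ n, t n)
      (_ : ∀ n, ediam (t n) ≤ ENNReal.ofReal (δ / 2)),
        ∑' n, ⨆ _ : (t n).Nonempty, ediam (t n) ^ (1 : ℝ)) < μH[1] W + ENNReal.ofReal (ε / 2) := by
    have h2 : (⨅ (t : ℕ → Set E) (_ : W ⊆ ⋃ n, t n)
      (_ : ∀ n, ediam (t n) ≤ ENNReal.ofReal (δ / 2)),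
        ∑' n, ⨆ _ : (t n).Nonempty, ediam (t n) ^ (1 : ℝ)) ≤ μH[1] W := by
      rw [Measure.hausdorffMeasure_apply]
      exact le_iSup₂_of_le (ENNReal.ofReal (δ / 2)) (by simpa using hδ) le_rfl
    refine lt_of_le_of_lt h2 (ENNReal.lt_add_right hfin ?_)
    simpa using hε
  simp only [iInf_lt_iff] at h1
  obtain ⟨t, hcov, hdiam, hsum⟩ := h1
  simp only [ENNReal.rpow_one] at hsum
  set η : ℕ → ℝ := fun n => min (δ / 4) (ε / 8 * (1 / 2) ^ n) with hη
  have hη0 : ∀ n, 0 < η n := fun n => lt_min (by positivity) (by positivity)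
  have hη1 : ∀ n, η n ≤ δ / 4 := fun n => min_le_left _ _
  have hη2 : ∀ n, η n ≤ ε / 8 * (1 / 2) ^ n := fun n => min_le_right _ _
  have hdiam' : ∀ n, (ediam (t n)).toReal ≤ δ / 2 := fun n =>
    ENNReal.toReal_le_of_le_ofReal (by positivity) (hdiam n)
  have hnt : ∀ n, ediam (t n) ≠ ⊤ := fun n =>
    ((hdiam n).trans_lt ENNReal.ofReal_lt_top).ne
  set U : ℕ → Set E := fun n => thickening (η n) (t n) with hU
  have hopen : ∀ n, IsOpen (U n) := fun n => isOpen_thickening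
  obtain ⟨K0, hK0⟩ := hW.elim_finite_subcover U hopen (hcov.trans
    (Set.iUnion_mono fun n => self_subset_thickening (hη0 n) _))
  refine ⟨K0.filter fun k => (U k ∩ W).Nonempty, U, fun n => (ediam (t n)).toReal + 2 * η n, hopen,
    ?_, fun k hk => (mem_filter.1 hk).2, ?_, ?_, ?_, ?_⟩
  · intro x hx
    have h2 := hK0 hx
    simp only [Set.mem_iUnion, exists_prop] at h2 ⊢
    obtain ⟨k, hk, hxk⟩ := h2
    exact ⟨k, mem_filter.2 ⟨hk, ⟨x, hxk, hx⟩⟩, hxk⟩
  · intro k x hx y hy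
    obtain ⟨a, ha, hxa⟩ := mem_thickening_iff.1 hx
    obtain ⟨b, hb, hyb⟩ := mem_thickening_iff.1 hy
    have h3 : dist a b ≤ (ediam (t k)).toReal := by
      rw [dist_edist]
      exact ENNReal.toReal_mono (hnt k) (edist_le_ediam_of_mem ha hb)
    have := dist_triangle4 x a b y
    rw [dist_comm b y] at this
    linarith
  · intro k
    have := hη0 k
    positivity
  · intro k
    have := hη1 k
    have := hdiam' k
    show (ediam (t k)).toReal + 2 * η k ≤ δ
    linarith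
  · rw [sum_add_distrib, ← mul_sum]
    have h4 : ∑ k ∈ K0.filter (fun k => (U k ∩ W).Nonempty), (ediam (t k)).toReal
        ≤ (μH[1] W).toReal + ε / 2 := by
      rw [← ENNReal.toReal_sum fun k _ => hnt k]
      have h5 : ∑ k ∈ K0.filter (fun k => (U k ∩ W).Nonempty), ediam (t k)
          ≤ μH[1] W + ENNReal.ofReal (ε / 2) := by
        refine le_trans ?_ hsum.le
        refine le_trans ?_ (ENNReal.sum_le_tsum (K0.filter fun k => (U k ∩ W).Nonempty))
        refine sum_le_sum fun k hk => ?_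
        have hne : (t k).Nonempty := by
          obtain ⟨x, hx, -⟩ := (mem_filter.1 hk).2
          obtain ⟨a, ha, -⟩ := mem_thickening_iff.1 hx
          exact ⟨a, ha⟩
        exact le_iSup_of_le hne le_rfl
      calc _ ≤ (μH[1] W + ENNReal.ofReal (ε / 2)).toReal :=
            ENNReal.toReal_mono (ENNReal.add_ne_top.2 ⟨hfin, ENNReal.ofReal_ne_top⟩) h5
        _ = _ := by
            rw [ENNReal.toReal_add hfin ENNReal.ofReal_ne_top, ENNReal.toReal_ofReal (by positivity)]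
    have h6 : ∑ k ∈ K0.filter (fun k => (U k ∩ W).Nonempty), η k ≤ ε / 4 := by
      calc _ ≤ ∑ k ∈ K0.filter (fun k => (U k ∩ W).Nonempty), ε / 8 * (1 / 2) ^ k :=
            sum_le_sum fun k _ => hη2 k
        _ = ε / 8 * ∑ k ∈ K0.filter (fun k => (U k ∩ W).Nonempty), (1 / 2) ^ k := by
            rw [mul_sum]
        _ ≤ ε / 8 * 2 := by
            gcongr
            have h7 := summable_geometric_two.sum_le_tsum
              (K0.filter fun k => (U k ∩ W).Nonempty) (fun k _ => by positivity)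
            rwa [tsum_geometric_two] at h7
        _ = ε / 4 := by ring
    linarith

omit [MeasurableSpace E] [BorelSpace E] in
lemma conn_of_cover {W : Set E} (hW : IsPreconnected W) {K : Finset ℕ} {U : ℕ → Set E}
    (hopen : ∀ k, IsOpen (U k)) (hcov : W ⊆ ⋃ k ∈ K, U k) (hne : ∀ k ∈ K, (U k ∩ W).Nonempty)
    {r : ℕ} (hr : r ∈ K) : Conn U r K := by
  classical
  have key : ∀ n ≤ K.card, 1 ≤ n → ∃ S ⊆ K, Conn U r S ∧ S.card = n := by
    intro n
    induction n with
    | zero => intro _ h; exact absurd h (by norm_num)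
    | succ n ih =>
      intro hn _
      rcases Nat.eq_zero_or_pos n with rfl | hpos
      · exact ⟨{r}, by simpa using hr, Conn.base, by simp⟩
      · obtain ⟨S, hSK, hS, hcard⟩ := ih (by omega) hpos
        have hSne : S.Nonempty := card_pos.1 (by omega)
        have hdne : (K \ S).Nonempty := by
          rw [← card_pos, card_sdiff_of_subset hSK]
          omega
        obtain ⟨j0, hj0⟩ := hSne
        obtain ⟨k0, hk0⟩ := hdne
        have h1 := hW (⋃ j ∈ S, U j) (⋃ k ∈ K \ S, U k)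
          (isOpen_biUnion fun j _ => hopen j) (isOpen_biUnion fun j _ => hopen j) (by
            intro x hx
            have h2 := hcov hx
            simp only [Set.mem_iUnion, exists_prop, Set.mem_union] at h2 ⊢
            obtain ⟨k, hk, hxk⟩ := h2
            by_cases hkS : k ∈ S
            · exact Or.inl ⟨k, hkS, hxk⟩
            · exact Or.inr ⟨k, mem_sdiff.2 ⟨hk, hkS⟩, hxk⟩) (by
            obtain ⟨x, hx1, hx2⟩ := hne j0 (hSK hj0)
            exact ⟨x, hx2, Set.mem_biUnion hj0 hx1⟩) (by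
            obtain ⟨x, hx1, hx2⟩ := hne k0 (mem_sdiff.1 hk0).1
            exact ⟨x, hx2, Set.mem_biUnion hk0 hx1⟩)
        obtain ⟨x, -, hx1, hx2⟩ := h1
        simp only [Set.mem_iUnion, exists_prop] at hx1 hx2
        obtain ⟨j, hj, hxj⟩ := hx1
        obtain ⟨k, hk, hxk⟩ := hx2
        obtain ⟨hkK, hkS⟩ := mem_sdiff.1 hk
        exact ⟨insert k S, insert_subset hkK hSK, Conn.step hS hkS hj ⟨x, hxj, hxk⟩, by
          rw [card_insert_of_notMem hkS, hcard]⟩
  obtain ⟨S, hSK, hS, hcard⟩ := key K.card le_rfl (card_pos.2 ⟨r, hr⟩)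
  rwa [eq_of_subset_of_card_le hSK hcard.ge] at hS

/-- **Reduction to finite trees.** -/
theorem exists_tree_of_continuum {ι : Type*} [DecidableEq ι] {W : Set E} (hW : IsCompact W)
    (hWc : IsPreconnected W) (hfin : μH[1] W ≠ ⊤) (p : ι → E) (I : Finset ι) (hI : I.Nonempty)
    (hp : ∀ i ∈ I, p i ∈ W) {z : E} (hz : z ∈ W) {ε : ℝ} (hε : 0 < ε) :
    ∃ F L, Tr p z I F L ∧ L ≤ (μH[1] W).toReal + ε := by
  classical
  have hI1 : (1 : ℝ) ≤ I.card := by exact_mod_cast hI.card_pos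
  set δ : ℝ := ε / (2 * I.card) with hδ
  have hδ0 : 0 < δ := by positivity
  obtain ⟨K, U, D, hopen, hcov, hne, hD, hD0, hDδ, hsum⟩ := exists_cover hW hfin hδ0
    (half_pos hε)
  have hex : ∀ x ∈ W, ∃ k, k ∈ K ∧ x ∈ U k := by
    intro x hx
    have := hcov hx
    simp only [Set.mem_iUnion, exists_prop] at this
    exact this
  obtain ⟨r, hrK, hr⟩ := hex z hz
  have hC := conn_of_cover hWc hopen hcov hne hrK
  have hc : ∀ i, ∃ k, i ∈ I → k ∈ K ∧ p i ∈ U k := by
    intro i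
    by_cases hi : i ∈ I
    · obtain ⟨k, hk⟩ := hex (p i) (hp i hi)
      exact ⟨k, fun _ => hk⟩
    · exact ⟨0, fun h => absurd h hi⟩
  choose c hc using hc
  obtain ⟨F, L, hT, hL⟩ := exists_tree hD hD0 hDδ hC p c I hI hc z hr
  refine ⟨F, L, hT, hL.trans ?_⟩
  have h1 : ((I.card : ℝ) - 1) * δ ≤ ε / 2 := by
    have h2 : (I.card : ℝ) * δ = ε / 2 := by
      rw [hδ]; field_simp
    nlinarith
  linarith

end Pool.Agent.U331.ST
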