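import Mathlib
import Pool.Agent.U331.ST.Comb
import Pool.Agent.U331.ST.Cover

/-!
# The configuration: the corners of a square and four further points, and the lower bound
-/

set_option autoImplicit false

namespace Pool.Agent.U331.ST

open Finset MeasureTheory Metric
open scoped ENNReal RealInnerProductSpace

/-- The plane. -/
abbrev Pl := EuclideanSpace ℝ (Fin 2)

/-- Points by coordinates. -/
noncomputable def pt (x y : ℝ) : Pl := !₂[x, y]

@[simp] lemma pt_zero (x y : ℝ) : (pt x y) 0 = x := rfl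

@[simp] lemma pt_one (x y : ℝ) : (pt x y) 1 = y := rfl

lemma pl_ext {u v : Pl} (h0 : u 0 = v 0) (h1 : u 1 = v 1) : u = v := by
  ext i
  fin_cases i
  · exact h0
  · exact h1

lemma inner_eq (u v : Pl) : ⟪u, v⟫ = u 0 * v 0 + u 1 * v 1 := by
  simp [PiLp.inner_apply, Fin.sum_univ_two]
  ring

lemma normsq_eq (u : Pl) : ‖u‖ ^ 2 = u 0 ^ 2 + u 1 ^ 2 := by
  rw [← real_inner_self_eq_norm_sq, inner_eq]
  ring

lemma norm_le_of_sq {u : Pl} {t : ℝ} (ht : 0 ≤ t) (h : u 0 ^ 2 + u 1 ^ 2 ≤ t ^ 2) : ‖u‖ ≤ t := by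
  rw [← normsq_eq] at h
  exact le_of_sq_le_sq h ht

lemma sum_coord {ι : Type*} (A : Finset ι) (f : ι → Pl) (k : Fin 2) :
    (∑ q ∈ A, f q) k = ∑ q ∈ A, f q k := by
  have := map_sum (EuclideanSpace.proj k : Pl →L[ℝ] ℝ) f A
  simp

lemma sx_sq (i : Fin 4) : (sx i : ℝ) ^ 2 = 1 := by fin_cases i <;> simp [sx]

lemma sy_sq (i : Fin 4) : (sy i : ℝ) ^ 2 = 1 := by fin_cases i <;> simp [sy]

lemma s3_sq : √(3 : ℝ) ^ 2 = 3 := Real.sq_sqrt (by norm_num)

lemma s3_pos : 0 < √(3 : ℝ) := Real.sqrt_pos.2 (by norm_num)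

lemma s3_gt : (1.7 : ℝ) < √3 := by
  rw [Real.lt_sqrt (by norm_num)]
  norm_num

lemma s3_lt : √(3 : ℝ) < 1.74 := by
  rw [Real.sqrt_lt' (by norm_num)]
  norm_num

lemma s2_sq : √(2 : ℝ) ^ 2 = 2 := Real.sq_sqrt (by norm_num)

lemma s2_pos : 0 < √(2 : ℝ) := Real.sqrt_pos.2 (by norm_num)

/-- The outer directions of the edges of the first tree. -/
noncomputable def e (i : Fin 4) : Pl := pt (sx i / 2) (sy i * √3 / 2)

/-- The outer directions of the edges of the second tree. -/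
noncomputable def e' (i : Fin 4) : Pl := pt (sx i * √3 / 2) (sy i / 2)

/-- The corners of the square. -/
noncomputable def c (i : Fin 4) : Pl := pt (sx i * √3) (sy i * √3)

/-- The end points of the arms. -/
noncomputable def w (i : Fin 4) : Pl := c i + (1 / 100 : ℝ) • e i

/-- The direction of `e' i - e i`. -/
noncomputable def n (i : Fin 4) : Pl := pt (sx i / √2) (-sy i / √2)

/-- The terminals. -/
noncomputable def a (q : Bool × Fin 4) : Pl := if q.1 then w q.2 else c q.2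

/-- The points of `M`; the radius is `1 / 1000`. -/
noncomputable def y (q : Bool × Fin 4) : Pl :=
  if q.1 then w q.2 + (1 / 1000 : ℝ) • e q.2 else c q.2 + (1 / 1000 : ℝ) • n q.2

/-- The first calibration. -/
noncomputable def ωS (q : Bool × Fin 4) : Pl := if q.1 then e q.2 else 0

/-- The second calibration. -/
noncomputable def ωT (q : Bool × Fin 4) : Pl := if q.1 then e q.2 else e' q.2 - e q.2

lemma sm_cast (f : Fin 4 → ℤ) (k : Bool) (A : Finset (Bool × Fin 4)) :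
    (sm f k A : ℝ) = ∑ q ∈ A, if q.1 = k then (f q.2 : ℝ) else 0 := by
  unfold sm
  push_cast
  rfl

lemma norm_ωS {A : Finset (Bool × Fin 4)} (hA : GoodS A) : ‖∑ q ∈ A, ωS q‖ ≤ 1 := by
  apply norm_le_of_sq zero_le_one
  have h0 : (∑ q ∈ A, ωS q) 0 = (sm sx true A : ℝ) / 2 := by
    rw [sum_coord, sm_cast, sum_div]
    refine sum_congr rfl fun q _ => ?_
    rcases q with ⟨k, i⟩
    cases k <;> simp [ωS, e]
  have h1 : (∑ q ∈ A, ωS q) 1 = (sm sy true A : ℝ) * √3 / 2 := by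
    rw [sum_coord, sm_cast, sum_mul, sum_div]
    refine sum_congr rfl fun q _ => ?_
    rcases q with ⟨k, i⟩
    cases k <;> simp [ωS, e]
  have h2 : ((sm sx true A : ℝ)) ^ 2 + 3 * (sm sy true A : ℝ) ^ 2 ≤ 4 := by
    exact_mod_cast hA
  rw [h0, h1]
  nlinarith [s3_sq]

lemma norm_ωT {A : Finset (Bool × Fin 4)} (hA : GoodT A) : ‖∑ q ∈ A, ωT q‖ ≤ 1 := by
  apply norm_le_of_sq zero_le_one
  have h0 : (∑ q ∈ A, ωT q) 0 = (sm sx true A : ℝ) / 2 + (sm sx false A : ℝ) * ((√3 - 1) / 2) := by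
    rw [sum_coord, sm_cast, sm_cast, sum_div, sum_mul, ← sum_add_distrib]
    refine sum_congr rfl fun q _ => ?_
    rcases q with ⟨k, i⟩
    cases k <;> simp [ωT, e, e']
    ring
  have h1 : (∑ q ∈ A, ωT q) 1 =
      (sm sy true A : ℝ) * √3 / 2 - (sm sy false A : ℝ) * ((√3 - 1) / 2) := by
    rw [sum_coord, sm_cast, sm_cast, sum_mul, sum_div, sum_mul, ← sum_sub_distrib]
    refine sum_congr rfl fun q _ => ?_
    rcases q with ⟨k, i⟩
    cases k <;> simp [ωT, e, e']
    ring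
  rw [h0, h1]
  set a : ℤ := sm sx true A with ha
  set b : ℤ := sm sy true A with hb
  set a' : ℤ := sm sx false A with ha'
  set b' : ℤ := sm sy false A with hb'
  have h2 : ((a : ℝ) / 2 + a' * ((√3 - 1) / 2)) ^ 2 + (b * √3 / 2 - b' * ((√3 - 1) / 2)) ^ 2 =
      ((PP a b a' b' : ℤ) + (QQ a b a' b' : ℤ) * √3) / 4 := by
    unfold PP QQ
    push_cast
    linear_combination ((a' : ℝ) ^ 2 / 4 + b ^ 2 / 4 - b * b' / 2 + b' ^ 2 / 4) * s3_sq
  rw [h2]
  have hA' : (QQ a b a' b' ≤ 0 ∧ 10 * PP a b a' b' + 17 * QQ a b a' b' ≤ 40) ∨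
      (0 ≤ QQ a b a' b' ∧ 100 * PP a b a' b' + 174 * QQ a b a' b' ≤ 400) := hA
  rcases hA' with ⟨h3, h4⟩ | ⟨h3, h4⟩
  · have h3' : ((QQ a b a' b' : ℤ) : ℝ) ≤ 0 := by exact_mod_cast h3
    have h4' : 10 * ((PP a b a' b' : ℤ) : ℝ) + 17 * ((QQ a b a' b' : ℤ) : ℝ) ≤ 40 := by
      exact_mod_cast h4
    nlinarith [s3_gt]
  · have h3' : 0 ≤ ((QQ a b a' b' : ℤ) : ℝ) := by exact_mod_cast h3
    have h4' : 100 * ((PP a b a' b' : ℤ) : ℝ) + 174 * ((QQ a b a' b' : ℤ) : ℝ) ≤ 400 := by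
      exact_mod_cast h4
    nlinarith [s3_lt]

/-- The total length. -/
noncomputable def Lt : ℝ := 6 + 2 * √3 + 4 / 100

lemma sum_all (f : Bool × Fin 4 → ℝ) : ∑ q, f q = ∑ i, f (true, i) + ∑ i, f (false, i) := by
  rw [Fintype.sum_prod_type]
  simp

lemma e_norm (i : Fin 4) : ‖e i‖ ≤ 1 := by
  apply norm_le_of_sq zero_le_one
  simp only [e, pt_zero, pt_one]
  nlinarith [sx_sq i, sy_sq i, s3_sq]

lemma inner_ge_of_ball {v z p : Pl} {r t : ℝ} (hv : ‖v‖ ≤ t) (hp : dist p z ≤ r) :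
    ⟪v, z⟫ - r * t ≤ ⟪v, p⟫ := by
  have h1 : ⟪v, z - p⟫ ≤ ‖v‖ * ‖z - p‖ := real_inner_le_norm _ _
  rw [inner_sub_right] at h1
  have h2 : ‖z - p‖ ≤ r := by rw [← dist_eq_norm, dist_comm]; exact hp
  have h3 : ‖v‖ * ‖z - p‖ ≤ t * r := mul_le_mul hv h2 (norm_nonneg _) ((norm_nonneg _).trans hv)
  linarith

lemma inner_e_y (i : Fin 4) : ⟪e i, y (true, i)⟫ = (√3 + 3) / 2 + 11 / 1000 := by
  rw [inner_eq]
  simp only [y, w, c, e, if_true, PiLp.add_apply, PiLp.smul_apply, smul_eq_mul, pt_zero, pt_one]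
  linear_combination (√3 / 2 + 11 / 4000) * sx_sq i + (3 / 2 + 33 / 4000) * sy_sq i +
    ((sy i : ℝ) ^ 2 / 2 + (sy i : ℝ) ^ 2 * 11 / 4000) * s3_sq

lemma lower_w {p : Pl} {i : Fin 4} (hp : dist p (y (true, i)) ≤ 1 / 1000) :
    (√3 + 3) / 2 + 1 / 100 ≤ ⟪e i, p⟫ := by
  have := inner_ge_of_ball (e_norm i) hp
  rw [inner_e_y] at this
  linarith

lemma lower_c {p : Pl} {i : Fin 4} (hp : dist p (y (false, i)) ≤ 1 / 1000) :
    0 ≤ ⟪e' i - e i, p⟫ := by
  have h1 : ‖e' i - e i‖ ≤ (√3 - 1) / 2 * √2 := by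
    apply norm_le_of_sq
    · have := s3_gt
      have := s2_pos
      exact mul_nonneg (by linarith) this.le
    · simp only [e, e', PiLp.sub_apply, pt_zero, pt_one]
      rw [mul_pow, s2_sq]
      apply le_of_eq
      linear_combination ((√3 - 1) ^ 2 / 4) * sx_sq i + ((√3 - 1) ^ 2 / 4) * sy_sq i
  have h2 := inner_ge_of_ball h1 hp
  have h3 : ⟪e' i - e i, y (false, i)⟫ = 1 / 1000 * ((√3 - 1) / 2 * √2) := by
    rw [inner_eq]
    have h4 : (1 : ℝ) / √2 = √2 / 2 := by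
      rw [div_eq_div_iff s2_pos.ne' (by norm_num)]
      nlinarith [s2_sq]
    have h5 : (sx i : ℝ) / √2 = sx i * (√2 / 2) := by rw [← h4]; ring
    have h6 : -(sy i : ℝ) / √2 = -sy i * (√2 / 2) := by rw [← h4]; ring
    simp only [y, c, e, e', n, PiLp.add_apply, PiLp.sub_apply, PiLp.smul_apply,
      smul_eq_mul, pt_zero, pt_one, Bool.false_eq_true, if_false]
    rw [h5, h6]
    linear_combination (√3 * (√3 - 1) / 2 + (√3 - 1) * √2 / 4000) * sx_sq i +
      (-(√3 * (√3 - 1) / 2) + (√3 - 1) * √2 / 4000) * sy_sq i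
  rw [h3] at h2
  linarith

/-- The two calibrations give the bound. -/
lemma bound_S {F : Set (Finset (Bool × Fin 4))} {L : ℝ} {p : Bool × Fin 4 → Pl} {x : Pl}
    (hT : Tr p x univ F L) (hp : ∀ q, dist (p q) (y q) ≤ 1 / 1000) (hF : ∀ A ∈ F, GoodS A) :
    Lt ≤ L := by
  have h1 := hT.calibrate ωS fun A hA => norm_ωS (hF A hA)
  have h2 : ∑ q, ⟪ωS q, p q - x⟫ = ∑ q, ⟪ωS q, p q⟫ - ⟪∑ q, ωS q, x⟫ := by
    rw [sum_inner, ← sum_sub_distrib]
    exact sum_congr rfl fun q _ => inner_sub_right _ _ _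
  have h3 : ∑ q, ωS q = 0 := by
    apply pl_ext
    · rw [sum_coord, sum_all]
      simp [ωS, e, sx, Fin.sum_univ_four]
      norm_num
    · rw [sum_coord, sum_all]
      simp [ωS, e, sy, Fin.sum_univ_four]
      ring
  rw [h2, h3, inner_zero_left, sub_zero, sum_all] at h1
  simp only [ωS, if_true, Bool.false_eq_true, if_false, inner_zero_left, sum_const_zero,
    add_zero, Fin.sum_univ_four] at h1
  have k0 := lower_w (hp (true, 0))
  have k1 := lower_w (hp (true, 1))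
  have k2 := lower_w (hp (true, 2))
  have k3 := lower_w (hp (true, 3))
  unfold Lt
  linarith

lemma bound_T {F : Set (Finset (Bool × Fin 4))} {L : ℝ} {p : Bool × Fin 4 → Pl} {x : Pl}
    (hT : Tr p x univ F L) (hp : ∀ q, dist (p q) (y q) ≤ 1 / 1000) (hF : ∀ A ∈ F, GoodT A) :
    Lt ≤ L := by
  have h1 := hT.calibrate ωT fun A hA => norm_ωT (hF A hA)
  have h2 : ∑ q, ⟪ωT q, p q - x⟫ = ∑ q, ⟪ωT q, p q⟫ - ⟪∑ q, ωT q, x⟫ := by
    rw [sum_inner, ← sum_sub_distrib]
    exact sum_congr rfl fun q _ => inner_sub_right _ _ _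
  have h3 : ∑ q, ωT q = 0 := by
    apply pl_ext
    · rw [sum_coord, sum_all]
      simp [ωT, e, e', sx, Fin.sum_univ_four]
      ring
    · rw [sum_coord, sum_all]
      simp [ωT, e, e', sy, Fin.sum_univ_four]
      ring
  rw [h2, h3, inner_zero_left, sub_zero, sum_all] at h1
  simp only [ωT, if_true, Bool.false_eq_true, if_false, Fin.sum_univ_four] at h1
  have k0 := lower_w (hp (true, 0))
  have k1 := lower_w (hp (true, 1))
  have k2 := lower_w (hp (true, 2))
  have k3 := lower_w (hp (true, 3))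
  have l0 := lower_c (hp (false, 0))
  have l1 := lower_c (hp (false, 1))
  have l2 := lower_c (hp (false, 2))
  have l3 := lower_c (hp (false, 3))
  unfold Lt
  linarith

/-! ### Trees with a branch which separates three corners from two -/

/-- First coordinates of the vectors for three corners, times 20. -/
def UX : Fin 4 → Fin 4 → ℤ :=
  ![![0, -19, 5, 14], ![-19, 0, 14, 5], ![-5, -14, 0, 19], ![-14, -5, 19, 0]]

/-- Second coordinates of the vectors for three corners, times 20. -/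
def UY : Fin 4 → Fin 4 → ℤ :=
  ![![0, -5, 19, -14], ![5, 0, 14, -19], ![19, -14, 0, -5], ![14, -19, 5, 0]]

/-- The vectors for three corners; the corner `m` is missing. -/
noncomputable def u (m i : Fin 4) : Pl := pt (UX m i / 20) (UY m i / 20)

lemma u_sub : ∀ (m : Fin 4) (C : Finset (Fin 4)),
    (∑ i ∈ C, UX m i) ^ 2 + (∑ i ∈ C, UY m i) ^ 2 ≤ 400 := by
  decide +kernel

lemma u_norm (m : Fin 4) (C : Finset (Fin 4)) : ‖∑ i ∈ C, u m i‖ ≤ 1 := by
  apply norm_le_of_sq zero_le_one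
  have h0 : (∑ i ∈ C, u m i) 0 = ((∑ i ∈ C, UX m i : ℤ) : ℝ) / 20 := by
    rw [sum_coord]
    push_cast
    rw [sum_div]
    rfl
  have h1 : (∑ i ∈ C, u m i) 1 = ((∑ i ∈ C, UY m i : ℤ) : ℝ) / 20 := by
    rw [sum_coord]
    push_cast
    rw [sum_div]
    rfl
  rw [h0, h1]
  have h2 : (((∑ i ∈ C, UX m i : ℤ) : ℝ)) ^ 2 + ((∑ i ∈ C, UY m i : ℤ) : ℝ) ^ 2 ≤ 400 := by
    exact_mod_cast u_sub m C
  nlinarith

lemma u_self (m : Fin 4) : u m m = 0 := by
  fin_cases m <;> (apply pl_ext <;> simp [u, UX, UY])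

lemma u_sum (m : Fin 4) : ∑ i, u m i = 0 := by
  apply pl_ext
  · rw [sum_coord]
    fin_cases m <;> simp [u, UX, Fin.sum_univ_four] <;> norm_num
  · rw [sum_coord]
    fin_cases m <;> simp [u, UY, Fin.sum_univ_four] <;> norm_num

lemma u_inner (m : Fin 4) : ∑ i, ⟪u m i, c i⟫ = 38 / 10 * √3 := by
  simp only [inner_eq]
  fin_cases m <;> simp [u, UX, UY, c, sx, sy, Fin.sum_univ_four] <;> ring

/-- The square of the distance of two corners, divided by 3. -/
def NN (i j : Fin 4) : ℤ := (sx i - sx j) ^ 2 + (sy i - sy j) ^ 2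

lemma NN_ge : ∀ i j : Fin 4, i ≠ j → 4 ≤ NN i j := by
  decide

/-- The vector for two corners. -/
noncomputable def v (i j : Fin 4) : Pl := pt (2 * (sx i - sx j) / NN i j) (2 * (sy i - sy j) / NN i j)

lemma NN_cast (i j : Fin 4) : (NN i j : ℝ) = ((sx i : ℝ) - sx j) ^ 2 + ((sy i : ℝ) - sy j) ^ 2 := by
  unfold NN
  push_cast
  rfl

lemma v_norm {i j : Fin 4} (h : i ≠ j) : ‖v i j‖ ≤ 1 := by
  apply norm_le_of_sq zero_le_one
  have h1 : (4 : ℝ) ≤ NN i j := by exact_mod_cast NN_ge i j h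
  simp only [v, pt_zero, pt_one]
  rw [div_pow, div_pow, ← add_div, div_le_iff₀ (by positivity)]
  have h2 := NN_cast i j
  nlinarith

lemma v_inner {i j : Fin 4} (h : i ≠ j) : ⟪v i j, c i - c j⟫ = 2 * √3 := by
  have h1 : (4 : ℝ) ≤ NN i j := by exact_mod_cast NN_ge i j h
  have h2 := NN_cast i j
  rw [inner_eq]
  simp only [v, c, PiLp.sub_apply, pt_zero, pt_one]
  field_simp
  rw [h2]

lemma dist_y_c (q : Bool × Fin 4) : dist (y q) (c q.2) ≤ 11 / 1000 := by
  rcases q with ⟨k, i⟩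
  cases k
  · simp only [y, Bool.false_eq_true, if_false]
    rw [dist_eq_norm, add_sub_cancel_left, norm_smul, Real.norm_eq_abs, abs_of_pos (by norm_num)]
    have h1 : ‖n i‖ ≤ 1 := by
      apply norm_le_of_sq zero_le_one
      simp only [n, pt_zero, pt_one, div_pow, s2_sq, neg_sq, sx_sq, sy_sq]
      norm_num
    linarith
  · simp only [y, w, if_true]
    rw [dist_eq_norm, add_assoc, add_sub_cancel_left, ← add_smul, norm_smul, Real.norm_eq_abs,
      abs_of_pos (by norm_num)]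
    have h1 := e_norm i
    linarith

lemma inner_near {ξ : Pl} (hξ : ‖ξ‖ ≤ 1) {p : Pl} {q : Bool × Fin 4} (hp : dist p (y q) ≤ 1 / 1000) :
    ⟪ξ, c q.2⟫ - 12 / 1000 ≤ ⟪ξ, p⟫ := by
  have h1 : dist p (c q.2) ≤ 12 / 1000 := by
    have := dist_triangle p (y q) (c q.2)
    have := dist_y_c q
    linarith
  have := inner_ge_of_ball hξ h1
  linarith

/-- Trees with a branch which separates three corners from two. -/
lemma bound_PT {F : Set (Finset (Bool × Fin 4))} {L : ℝ} {p : Bool × Fin 4 → Pl} {x : Pl}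
    (hT : Tr p x univ F L) (hp : ∀ q, dist (p q) (y q) ≤ 1 / 1000)
    {B : Finset (Bool × Fin 4)} (hB : B ∈ F) (h : PT B) : Lt ≤ L := by
  -- `X` contains three corners and its complement two
  obtain ⟨X, hX, h3, h2⟩ : ∃ X : Finset (Bool × Fin 4), (X = B ∨ X = Bᶜ) ∧ 3 ≤ (cor X).card ∧
      2 ≤ (cor Xᶜ).card := by
    rcases h with h | h
    · exact ⟨B, Or.inl rfl, h.1, h.2⟩
    · exact ⟨Bᶜ, Or.inr rfl, h.1, by rw [compl_compl]; exact h.2⟩
  obtain ⟨m, hm⟩ := three_corners _ h3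
  obtain ⟨i, hi, j, hj, hij⟩ := two_corners h2
  obtain ⟨g, hg, rfl⟩ := mem_image.1 hi
  obtain ⟨g', hg', rfl⟩ := mem_image.1 hj
  rw [mem_compl] at hg hg'
  have hf : ∀ i, ∃ q : Bool × Fin 4, q.2 = i ∧ (i ≠ m → q ∈ X) := by
    intro i
    by_cases him : i = m
    · exact ⟨(true, i), rfl, fun h => absurd him h⟩
    · obtain ⟨q, hq, hqi⟩ := mem_image.1 (hm i him)
      exact ⟨q, hqi, fun _ => hq⟩
  choose f hf2 hfX using hf
  set ω : Bool × Fin 4 → Pl := fun q => ∑ i, (if q = f i then u m i else 0) +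
    ((if q = g then v g.2 g'.2 else 0) - (if q = g' then v g.2 g'.2 else 0)) with hω
  have hsum : ∀ A : Finset (Bool × Fin 4), ∑ q ∈ A, ω q =
      ∑ i ∈ univ.filter (fun i => f i ∈ A), u m i +
        ((if g ∈ A then v g.2 g'.2 else 0) - (if g' ∈ A then v g.2 g'.2 else 0)) := by
    intro A
    simp only [hω, sum_add_distrib, sum_sub_distrib]
    rw [sum_comm, sum_filter]
    simp
  have hcal := hT.calibrate ω (by
    intro A hA
    rw [hsum A]
    have k1 := u_norm m (univ.filter fun i => f i ∈ A)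
    have k2 : ‖((if g ∈ A then v g.2 g'.2 else 0) - (if g' ∈ A then v g.2 g'.2 else 0))‖ ≤ 1 := by
      have := v_norm hij
      split_ifs <;> simp [this]
    -- one of the two parts vanishes
    have kf : ∀ P : Prop, (P ↔ f m ∈ A) → ∀ D : Finset (Fin 4), (∀ i, i ≠ m → i ∉ D) →
        ∑ i ∈ D, u m i = 0 := by
      intro _ _ D hD
      apply sum_eq_zero
      intro i hi
      by_cases him : i = m
      · rw [him, u_self]
      · exact absurd hi (hD i him)
    have kz : (∑ i ∈ univ.filter (fun i => f i ∈ A), u m i = 0) ∨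
        ((if g ∈ A then v g.2 g'.2 else 0) - (if g' ∈ A then v g.2 g'.2 else 0)) = 0 := by
      have z1 : (∀ i, i ≠ m → f i ∉ A) → ∑ i ∈ univ.filter (fun i => f i ∈ A), u m i = 0 :=
        fun hh => kf _ Iff.rfl _ fun i him hi => hh i him (mem_filter.1 hi).2
      have z2 : (∀ i, i ≠ m → f i ∈ A) → ∑ i ∈ univ.filter (fun i => f i ∈ A), u m i = 0 := by
        intro hh
        rw [← u_sum m, ← sum_filter_add_sum_filter_not univ (fun i => f i ∈ A),
          kf _ Iff.rfl (univ.filter fun i => f i ∉ A)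
            (fun i him hi => (mem_filter.1 hi).2 (hh i him)), add_zero]
      have z3 : g ∉ A → g' ∉ A →
          ((if g ∈ A then v g.2 g'.2 else 0) - (if g' ∈ A then v g.2 g'.2 else 0)) = 0 := by
        intro a1 a2
        rw [if_neg a1, if_neg a2, sub_zero]
      have z4 : g ∈ A → g' ∈ A →
          ((if g ∈ A then v g.2 g'.2 else 0) - (if g' ∈ A then v g.2 g'.2 else 0)) = 0 := by
        intro a1 a2
        rw [if_pos a1, if_pos a2, sub_self]
      rcases hX with rfl | rfl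
      · rcases hT.laminar A hA X hB with hh | hh | hh
        · exact Or.inr (z3 (fun h => hg (hh h)) (fun h => hg' (hh h)))
        · exact Or.inl (z2 fun i him => hh (hfX i him))
        · exact Or.inl (z1 fun i him hi => Finset.disjoint_left.1 hh hi (hfX i him))
      · rw [mem_compl, not_not] at hg hg'
        rcases hT.laminar A hA B hB with hh | hh | hh
        · exact Or.inl (z1 fun i him hi => mem_compl.1 (hfX i him) (hh hi))
        · exact Or.inr (z4 (hh hg) (hh hg'))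
        · exact Or.inr (z3 (fun h => Finset.disjoint_left.1 hh h hg)
            (fun h => Finset.disjoint_left.1 hh h hg'))
    rcases kz with kz | kz
    · rw [kz, zero_add]; exact k2
    · rw [kz, add_zero]; exact k1)
  have h2' : ∑ q, ⟪ω q, p q - x⟫ = ∑ q, ⟪ω q, p q⟫ - ⟪∑ q, ω q, x⟫ := by
    rw [sum_inner, ← sum_sub_distrib]
    exact sum_congr rfl fun q _ => inner_sub_right _ _ _
  have h4 : ∑ q, ω q = 0 := by
    rw [hsum univ]
    simp [u_sum]
  have h5 : ∑ q, ⟪ω q, p q⟫ = ∑ i, ⟪u m i, p (f i)⟫ + ⟪v g.2 g'.2, p g - p g'⟫ := by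
    have : ∀ q, ⟪ω q, p q⟫ = ∑ i, (if q = f i then ⟪u m i, p q⟫ else 0) +
        ((if q = g then ⟪v g.2 g'.2, p q⟫ else 0) - (if q = g' then ⟪v g.2 g'.2, p q⟫ else 0)) := by
      intro q
      simp only [hω, inner_add_left, inner_sub_left, sum_inner]
      congr 1
      · refine sum_congr rfl fun i _ => ?_
        split_ifs <;> simp
      · split_ifs <;> simp
    simp only [this, sum_add_distrib, sum_sub_distrib]
    rw [sum_comm, inner_sub_right]
    simp
  rw [h2', h4, inner_zero_left, sub_zero, h5, inner_sub_right] at hcal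
  have h6 : ∀ i, ⟪u m i, c i⟫ - 12 / 1000 ≤ ⟪u m i, p (f i)⟫ := by
    intro i
    have k1 : ‖u m i‖ ≤ 1 := by
      have := u_norm m {i}
      rwa [sum_singleton] at this
    have k2 := inner_near k1 (hp (f i))
    rwa [hf2] at k2
  have h7 : ∑ i, ⟪u m i, c i⟫ - 48 / 1000 ≤ ∑ i, ⟪u m i, p (f i)⟫ := by
    have := sum_le_sum fun i (_ : i ∈ (univ : Finset (Fin 4))) => h6 i
    rw [sum_sub_distrib] at this
    simp only [sum_const, card_univ, Fintype.card_fin, nsmul_eq_mul] at this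
    norm_num at this ⊢
    linarith
  rw [u_inner] at h7
  have h8 := inner_near (v_norm hij) (hp g)
  have h9 := inner_near (ξ := - v g.2 g'.2) (by rw [norm_neg]; exact v_norm hij) (hp g')
  rw [inner_neg_left, inner_neg_left] at h9
  have h10 := v_inner hij
  rw [inner_sub_right] at h10
  have := s3_gt
  unfold Lt
  linarith

/-- **The lower bound.** -/
theorem lower {W : Set Pl} (hW : IsCompact W) (hWc : IsConnected W)
    (hM : ∀ q, infDist (y q) W ≤ 1 / 1000) : ENNReal.ofReal Lt ≤ μH[1] W := by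
  by_cases hfin : μH[1] W = ⊤
  · rw [hfin]; exact le_top
  have hp : ∀ q, ∃ p ∈ W, dist p (y q) ≤ 1 / 1000 := by
    intro q
    obtain ⟨p, hp, hpd⟩ := hW.exists_infDist_eq_dist hWc.nonempty (y q)
    refine ⟨p, hp, ?_⟩
    rw [dist_comm, ← hpd]
    exact hM q
  choose p hpW hpd using hp
  obtain ⟨z, hz⟩ := hWc.nonempty
  rw [← ENNReal.ofReal_toReal hfin]
  apply ENNReal.ofReal_le_ofReal
  apply le_of_forall_pos_le_add
  intro ε hε
  obtain ⟨F, L, hT, hL⟩ := exists_tree_of_continuum hW hWc.isPreconnected hfin p univ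
    univ_nonempty (fun q _ => hpW q) hz hε
  refine le_trans ?_ hL
  by_cases hS : ∀ A ∈ F, GoodS A
  · exact bound_S hT hpd hS
  push Not at hS
  obtain ⟨A, hA, hA'⟩ := hS
  by_cases hT' : ∀ B ∈ F, GoodT B
  · exact bound_T hT hpd hT'
  push Not at hT'
  obtain ⟨B, hB, hB'⟩ := hT'
  exact bound_PT hT hpd hB (pair_triple hA' hB' (hT.laminar A hA B hB))

end Pool.Agent.U331.ST
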