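import Mathlib
import Pool.Agent.U331.ST.Config

/-!
# The two Steiner trees
-/

set_option autoImplicit false

namespace Pool.Agent.U331.ST

open MeasureTheory Metric Set
open scoped ENNReal RealInnerProductSpace

/-- The branching points of the first tree. -/
noncomputable def s (i : Fin 4) : Pl := pt (sx i * (√3 - 1)) 0

/-- The branching points of the second tree. -/
noncomputable def t (i : Fin 4) : Pl := pt 0 (sy i * (√3 - 1))

/-- The first tree. -/
noncomputable def TS : Set Pl := (⋃ i, segment ℝ (s i) (w i)) ∪ segment ℝ (s 0) (s 2)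

/-- The second tree. -/
noncomputable def TT : Set Pl :=
  ((⋃ i, segment ℝ (c i) (w i)) ∪ ⋃ i, segment ℝ (t i) (c i)) ∪ segment ℝ (t 0) (t 1)

lemma isCompact_segment (x y : Pl) : IsCompact (segment ℝ x y) := by
  rw [segment_eq_image_lineMap]
  exact isCompact_Icc.image AffineMap.lineMap_continuous

lemma c_eq_s (i : Fin 4) : c i = s i + (2 : ℝ) • e i := by
  apply pl_ext <;> simp [c, s, e] <;> ring

lemma c_eq_t (i : Fin 4) : c i = t i + (2 : ℝ) • e' i := by
  apply pl_ext <;> simp [c, t, e'] <;> ring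

lemma w_eq_s (i : Fin 4) : w i = s i + (201 / 100 : ℝ) • e i := by
  rw [w, c_eq_s, add_assoc, ← add_smul]
  norm_num

lemma c_mem_segment (i : Fin 4) : c i ∈ segment ℝ (s i) (w i) := by
  rw [segment_eq_image']
  refine ⟨200 / 201, ⟨by norm_num, by norm_num⟩, ?_⟩
  simp only
  rw [w_eq_s, add_sub_cancel_left, smul_smul, c_eq_s]
  norm_num

lemma a_mem_TS (q : Bool × Fin 4) : a q ∈ TS := by
  rcases q with ⟨k, i⟩
  left
  rw [mem_iUnion]
  cases k
  · exact ⟨i, c_mem_segment i⟩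
  · exact ⟨i, right_mem_segment ℝ _ _⟩

lemma a_mem_TT (q : Bool × Fin 4) : a q ∈ TT := by
  rcases q with ⟨k, i⟩
  left; left
  rw [mem_iUnion]
  cases k
  · exact ⟨i, left_mem_segment ℝ _ _⟩
  · exact ⟨i, right_mem_segment ℝ _ _⟩

lemma isCompact_TS : IsCompact TS :=
  (isCompact_iUnion fun _ => isCompact_segment _ _).union (isCompact_segment _ _)

lemma isCompact_TT : IsCompact TT :=
  ((isCompact_iUnion fun _ => isCompact_segment _ _).union
    (isCompact_iUnion fun _ => isCompact_segment _ _)).union (isCompact_segment _ _)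

lemma joined_segment {p q p' q' : Pl} {X : Set Pl} (h : segment ℝ p q ⊆ X)
    (hp : p' ∈ segment ℝ p q) (hq : q' ∈ segment ℝ p q) : JoinedIn X p' q' :=
  (((convex_segment p q).isPathConnected ⟨p', hp⟩).joinedIn p' hp q' hq).mono h

lemma s_cases (i : Fin 4) : s i = s 0 ∨ s i = s 2 := by
  fin_cases i <;> simp [s, sx]

lemma t_cases (i : Fin 4) : t i = t 0 ∨ t i = t 1 := by
  fin_cases i <;> simp [t, sy]

lemma isConnected_TS : IsConnected TS := by
  have h1 : segment ℝ (s 0) (s 2) ⊆ TS := subset_union_right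
  have h2 : ∀ i, segment ℝ (s i) (w i) ⊆ TS := fun i =>
    (subset_iUnion (fun i => segment ℝ (s i) (w i)) i).trans subset_union_left
  have h3 : ∀ i, s i ∈ segment ℝ (s 0) (s 2) := by
    intro i
    rcases s_cases i with h | h <;> rw [h]
    · exact left_mem_segment ℝ _ _
    · exact right_mem_segment ℝ _ _
  have : IsPathConnected TS := by
    refine ⟨s 0, h1 (left_mem_segment ℝ _ _), ?_⟩
    intro z hz
    rcases hz with hz | hz
    · obtain ⟨i, hi⟩ := mem_iUnion.1 hz
      exact (joined_segment h1 (left_mem_segment ℝ _ _) (h3 i)).trans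
        (joined_segment (h2 i) (left_mem_segment ℝ _ _) hi)
    · exact joined_segment h1 (left_mem_segment ℝ _ _) hz
  exact this.isConnected

lemma isConnected_TT : IsConnected TT := by
  have h1 : segment ℝ (t 0) (t 1) ⊆ TT := subset_union_right
  have h2 : ∀ i, segment ℝ (t i) (c i) ⊆ TT := fun i =>
    ((subset_iUnion (fun i => segment ℝ (t i) (c i)) i).trans subset_union_right).trans
      subset_union_left
  have h2' : ∀ i, segment ℝ (c i) (w i) ⊆ TT := fun i =>
    ((subset_iUnion (fun i => segment ℝ (c i) (w i)) i).trans subset_union_left).trans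
      subset_union_left
  have h3 : ∀ i, t i ∈ segment ℝ (t 0) (t 1) := by
    intro i
    rcases t_cases i with h | h <;> rw [h]
    · exact left_mem_segment ℝ _ _
    · exact right_mem_segment ℝ _ _
  have : IsPathConnected TT := by
    refine ⟨t 0, h1 (left_mem_segment ℝ _ _), ?_⟩
    intro z hz
    rcases hz with (hz | hz) | hz
    · obtain ⟨i, hi⟩ := mem_iUnion.1 hz
      exact ((joined_segment h1 (left_mem_segment ℝ _ _) (h3 i)).trans
        (joined_segment (h2 i) (left_mem_segment ℝ _ _) (right_mem_segment ℝ _ _))).trans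
          (joined_segment (h2' i) (left_mem_segment ℝ _ _) hi)
    · obtain ⟨i, hi⟩ := mem_iUnion.1 hz
      exact (joined_segment h1 (left_mem_segment ℝ _ _) (h3 i)).trans
        (joined_segment (h2 i) (left_mem_segment ℝ _ _) hi)
    · exact joined_segment h1 (left_mem_segment ℝ _ _) hz
  exact this.isConnected

lemma e'_norm (i : Fin 4) : ‖e' i‖ ≤ 1 := by
  apply norm_le_of_sq zero_le_one
  simp only [e', pt_zero, pt_one]
  nlinarith [sx_sq i, sy_sq i, s3_sq]

lemma len_segment {x y : Pl} {r : ℝ} (h : dist x y ≤ r) :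
    μH[1] (segment ℝ x y) ≤ ENNReal.ofReal r := by
  rw [hausdorffMeasure_segment, edist_dist]
  exact ENNReal.ofReal_le_ofReal h

lemma len_four {f : Fin 4 → Set Pl} {r : ℝ} (h : ∀ i, μH[1] (f i) ≤ ENNReal.ofReal r) :
    μH[1] (⋃ i, f i) ≤ ENNReal.ofReal (4 * r) := by
  calc μH[1] (⋃ i, f i) ≤ ∑' i, μH[1] (f i) := measure_iUnion_le _
    _ = ∑ i, μH[1] (f i) := tsum_fintype _
    _ ≤ ∑ _i : Fin 4, ENNReal.ofReal r := Finset.sum_le_sum fun i _ => h i
    _ = ENNReal.ofReal (4 * r) := by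
      rw [Finset.sum_const, Finset.card_univ, Fintype.card_fin, nsmul_eq_mul,
        ENNReal.ofReal_mul (by norm_num)]
      norm_num

lemma len_TS : μH[1] TS ≤ ENNReal.ofReal Lt := by
  have h1 : ∀ i, μH[1] (segment ℝ (s i) (w i)) ≤ ENNReal.ofReal (201 / 100) := by
    intro i
    apply len_segment
    rw [w_eq_s, dist_comm, dist_eq_norm, add_sub_cancel_left, norm_smul, Real.norm_eq_abs,
      abs_of_pos (by norm_num)]
    have := e_norm i
    linarith
  have h2 : μH[1] (segment ℝ (s 0) (s 2)) ≤ ENNReal.ofReal (2 * (√3 - 1)) := by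
    apply len_segment
    rw [dist_eq_norm]
    have := s3_gt
    apply norm_le_of_sq (by linarith)
    simp [s, sx]
    nlinarith
  have := s3_gt
  calc μH[1] TS ≤ μH[1] (⋃ i, segment ℝ (s i) (w i)) + μH[1] (segment ℝ (s 0) (s 2)) :=
        measure_union_le _ _
    _ ≤ ENNReal.ofReal (4 * (201 / 100)) + ENNReal.ofReal (2 * (√3 - 1)) :=
        add_le_add (len_four h1) h2
    _ = ENNReal.ofReal Lt := by
        rw [← ENNReal.ofReal_add (by norm_num) (by linarith)]
        congr 1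
        unfold Lt
        ring

lemma len_TT : μH[1] TT ≤ ENNReal.ofReal Lt := by
  have h1 : ∀ i, μH[1] (segment ℝ (c i) (w i)) ≤ ENNReal.ofReal (1 / 100) := by
    intro i
    apply len_segment
    rw [w, dist_comm, dist_eq_norm, add_sub_cancel_left, norm_smul, Real.norm_eq_abs,
      abs_of_pos (by norm_num)]
    have := e_norm i
    linarith
  have h1' : ∀ i, μH[1] (segment ℝ (t i) (c i)) ≤ ENNReal.ofReal 2 := by
    intro i
    apply len_segment
    rw [c_eq_t, dist_comm, dist_eq_norm, add_sub_cancel_left, norm_smul, Real.norm_eq_abs,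
      abs_of_pos (by norm_num)]
    have := e'_norm i
    linarith
  have h2 : μH[1] (segment ℝ (t 0) (t 1)) ≤ ENNReal.ofReal (2 * (√3 - 1)) := by
    apply len_segment
    rw [dist_eq_norm]
    have := s3_gt
    apply norm_le_of_sq (by linarith)
    simp [t, sy]
    nlinarith
  have := s3_gt
  calc μH[1] TT ≤ μH[1] ((⋃ i, segment ℝ (c i) (w i)) ∪ ⋃ i, segment ℝ (t i) (c i)) +
          μH[1] (segment ℝ (t 0) (t 1)) := measure_union_le _ _
    _ ≤ (ENNReal.ofReal (4 * (1 / 100)) + ENNReal.ofReal (4 * 2)) +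
          ENNReal.ofReal (2 * (√3 - 1)) :=
        add_le_add ((measure_union_le _ _).trans
          (add_le_add (len_four h1) (len_four h1'))) h2
    _ = ENNReal.ofReal Lt := by
        rw [← ENNReal.ofReal_add (by norm_num) (by norm_num),
          ← ENNReal.ofReal_add (by norm_num) (by linarith)]
        congr 1
        unfold Lt
        ring

lemma dist_y_a (q : Bool × Fin 4) : dist (y q) (a q) ≤ 1 / 1000 := by
  rcases q with ⟨k, i⟩
  cases k
  · simp only [y, a, Bool.false_eq_true, if_false]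
    rw [dist_eq_norm, add_sub_cancel_left, norm_smul, Real.norm_eq_abs, abs_of_pos (by norm_num)]
    have h1 : ‖n i‖ ≤ 1 := by
      apply norm_le_of_sq zero_le_one
      simp only [n, pt_zero, pt_one, div_pow, s2_sq, neg_sq, sx_sq, sy_sq]
      norm_num
    linarith
  · simp only [y, a, if_true]
    rw [dist_eq_norm, add_sub_cancel_left, norm_smul, Real.norm_eq_abs, abs_of_pos (by norm_num)]
    have h1 := e_norm i
    linarith

lemma covers {W : Set Pl} (hA : range a ⊆ W) : ∀ q, infDist (y q) W ≤ 1 / 1000 := fun q =>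
  (infDist_le_dist_of_mem (hA ⟨q, rfl⟩)).trans (dist_y_a q)

lemma steiner {W : Set Pl} (hW : IsCompact W) (hWc : IsConnected W) (hA : range a ⊆ W) :
    ENNReal.ofReal Lt ≤ μH[1] W := lower hW hWc (covers hA)

/-! ### The segments of the second tree -/

lemma mem_TT {z : Pl} (hz : z ∈ TT) :
    (∃ i, ∃ τ ∈ Icc (0 : ℝ) (1 / 100), z 0 = sx i * (√3 + τ / 2) ∧ z 1 = sy i * (√3 + τ * √3 / 2)) ∨
    (∃ i, ∃ τ ∈ Icc (0 : ℝ) 2, z 0 = sx i * (√3 - τ * √3 / 2) ∧ z 1 = sy i * (√3 - τ / 2)) ∨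
    (z 0 = 0 ∧ |z 1| ≤ √3 - 1) := by
  rcases hz with (hz | hz) | hz
  · left
    obtain ⟨i, hi⟩ := mem_iUnion.1 hz
    rw [segment_eq_image'] at hi
    obtain ⟨θ, hθ, rfl⟩ := hi
    refine ⟨i, θ / 100, ⟨by linarith [hθ.1], by linarith [hθ.2]⟩, ?_, ?_⟩
    · simp [w, c, e]; ring
    · simp [w, c, e]; ring
  · right; left
    obtain ⟨i, hi⟩ := mem_iUnion.1 hz
    rw [segment_eq_image'] at hi
    obtain ⟨θ, hθ, rfl⟩ := hi
    refine ⟨i, 2 * (1 - θ), ⟨by linarith [hθ.2], by linarith [hθ.1]⟩, ?_, ?_⟩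
    · simp [t, c]; ring
    · simp [t, c]; ring
  · right; right
    rw [segment_eq_image'] at hz
    obtain ⟨θ, hθ, rfl⟩ := hz
    have := s3_gt
    constructor
    · simp [t]
    · simp only [t, sy, PiLp.add_apply, PiLp.smul_apply, PiLp.sub_apply, smul_eq_mul, pt_one]
      simp only [Matrix.cons_val_zero, Matrix.cons_val_one]
      rw [abs_le]
      push_cast
      constructor <;> nlinarith [hθ.1, hθ.2]

lemma sx_prod (i j : Fin 4) :
    ((sx j : ℝ) * sx i = 1 ∧ (sx i : ℝ) = sx j) ∨ (sx j : ℝ) * sx i = -1 := by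
  fin_cases i <;> fin_cases j <;> simp [sx]

lemma sy_prod (i j : Fin 4) :
    ((sy j : ℝ) * sy i = 1 ∧ (sy i : ℝ) = sy j) ∨ (sy j : ℝ) * sy i = -1 := by
  fin_cases i <;> fin_cases j <;> simp [sy]

lemma sy_abs (i : Fin 4) : |(sy i : ℝ)| = 1 := by
  fin_cases i <;> simp [sy]

/-- The functional which exposes `w j`. -/
lemma expose (j : Fin 4) {z : Pl} (hz : z ∈ TT) :
    ⟪e j, z⟫ ≤ ⟪e j, w j⟫ ∧ (⟪e j, z⟫ = ⟪e j, w j⟫ → z = w j) := by
  have h1 := s3_gt
  have h2 := s3_lt
  have h3 := s3_sq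
  have hw0 : (w j) 0 = sx j * (√3 + 1 / 200) := by simp [w, c, e]; ring
  have hw1 : (w j) 1 = sy j * (√3 + √3 / 200) := by simp [w, c, e]; ring
  have he : ⟪e j, w j⟫ = (√3 + 3) / 2 + 1 / 100 := by
    rw [inner_eq, hw0, hw1]
    simp only [e, pt_zero, pt_one]
    linear_combination ((√3 + 1 / 200) / 2) * sx_sq j + (√3 * (√3 + √3 / 200) / 2) * sy_sq j +
      (1 / 2 + 1 / 400) * h3
  rw [he, inner_eq]
  simp only [e, pt_zero, pt_one]
  rcases mem_TT hz with ⟨i, τ, ⟨hτ0, hτ1⟩, z0, z1⟩ | ⟨i, τ, ⟨hτ0, hτ1⟩, z0, z1⟩ | ⟨z0, z1⟩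
  · have key : (sx j : ℝ) / 2 * z 0 + sy j * √3 / 2 * z 1 =
        (sx j * sx i) * (√3 + τ / 2) / 2 + (sy j * sy i) * (3 + 3 * τ / 2) / 2 := by
      rw [z0, z1]
      linear_combination (((sy j : ℝ) * sy i) / 2 * (1 + τ / 2)) * h3
    rw [key]
    rcases sx_prod i j with ⟨x1, x2⟩ | x1 <;> rcases sy_prod i j with ⟨y1, y2⟩ | y1 <;>
      rw [x1, y1]
    · constructor
      · linarith
      · intro h
        have hτ' : τ = 1 / 100 := by linarith
        apply pl_ext
        · rw [z0, hw0, x2, hτ']; ring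
        · rw [z1, hw1, y2, hτ']; ring
    · exact ⟨by linarith, fun h => by exfalso; linarith⟩
    · exact ⟨by linarith, fun h => by exfalso; linarith⟩
    · exact ⟨by linarith, fun h => by exfalso; linarith⟩
  · have key : (sx j : ℝ) / 2 * z 0 + sy j * √3 / 2 * z 1 =
        (sx j * sx i) * (√3 - τ * √3 / 2) / 2 + (sy j * sy i) * (3 - τ * √3 / 2) / 2 := by
      rw [z0, z1]
      linear_combination (((sy j : ℝ) * sy i) / 2) * h3
    have hτ3 : 0 ≤ τ * √3 := mul_nonneg hτ0 s3_pos.le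
    have hτ4 : τ * √3 ≤ 2 * √3 := mul_le_mul_of_nonneg_right hτ1 s3_pos.le
    rw [key]
    rcases sx_prod i j with ⟨x1, x2⟩ | x1 <;> rcases sy_prod i j with ⟨y1, y2⟩ | y1 <;>
      rw [x1, y1] <;> exact ⟨by linarith, fun h => by exfalso; linarith⟩
  · rw [z0, mul_zero, zero_add]
    have k1 : sy j * √3 / 2 * z 1 ≤ √3 / 2 * (√3 - 1) := by
      calc sy j * √3 / 2 * z 1 ≤ |sy j * √3 / 2 * z 1| := le_abs_self _
        _ = √3 / 2 * |z 1| := by
            rw [abs_mul, abs_div, abs_mul, sy_abs, abs_of_pos s3_pos, abs_two]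
            ring
        _ ≤ √3 / 2 * (√3 - 1) := by gcongr
    have k2 : √3 / 2 * (√3 - 1) = (3 - √3) / 2 := by linear_combination h3 / 2
    rw [k2] at k1
    exact ⟨by linarith, fun h => by exfalso; linarith⟩

/-- Near `c j` the tree is on one side of a line. -/
lemma near_c (j : Fin 4) {z : Pl} (hz : z ∈ TT) (h0 : 1 < sx j * z 0) (h1 : 1 < sy j * z 1) :
    0 ≤ -(sx j * z 0) + sy j * z 1 ∧ (-(sx j * z 0) + sy j * z 1 = 0 → z = c j) := by
  have g1 := s3_gt
  have g2 := s3_lt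
  rcases mem_TT hz with ⟨i, τ, ⟨hτ0, hτ1⟩, z0, z1⟩ | ⟨i, τ, ⟨hτ0, hτ1⟩, z0, z1⟩ | ⟨z0, z1⟩
  · have k0 : (sx j : ℝ) * z 0 = (sx j * sx i) * (√3 + τ / 2) := by rw [z0]; ring
    have k1 : (sy j : ℝ) * z 1 = (sy j * sy i) * (√3 + τ * √3 / 2) := by rw [z1]; ring
    have hτ3 : 0 ≤ τ * (√3 - 1) := mul_nonneg hτ0 (by linarith)
    have hτ4 : 0 ≤ τ * √3 := mul_nonneg hτ0 s3_pos.le
    rw [k0] at h0 ⊢
    rw [k1] at h1 ⊢
    rcases sx_prod i j with ⟨x1, x2⟩ | x1 <;> rcases sy_prod i j with ⟨y1, y2⟩ | y1 <;>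
      rw [x1] at h0 ⊢ <;> rw [y1] at h1 ⊢
    · constructor
      · linarith
      · intro h
        have h5 : τ * (√3 - 1) = 0 := by linarith
        have hτ' : τ = 0 := by
          rcases mul_eq_zero.1 h5 with h6 | h6
          · exact h6
          · linarith
        apply pl_ext
        · rw [z0, x2, hτ']; simp [c]
        · rw [z1, y2, hτ']; simp [c]
    · exfalso; linarith
    · exfalso; linarith
    · exfalso; linarith
  · have k0 : (sx j : ℝ) * z 0 = (sx j * sx i) * (√3 - τ * √3 / 2) := by rw [z0]; ring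
    have k1 : (sy j : ℝ) * z 1 = (sy j * sy i) * (√3 - τ / 2) := by rw [z1]; ring
    have hτ3 : 0 ≤ τ * (√3 - 1) := mul_nonneg hτ0 (by linarith)
    have hτ4 : 0 ≤ τ * √3 := mul_nonneg hτ0 s3_pos.le
    have hτ5 : τ * √3 ≤ 2 * √3 := mul_le_mul_of_nonneg_right hτ1 s3_pos.le
    rw [k0] at h0 ⊢
    rw [k1] at h1 ⊢
    rcases sx_prod i j with ⟨x1, x2⟩ | x1 <;> rcases sy_prod i j with ⟨y1, y2⟩ | y1 <;>
      rw [x1] at h0 ⊢ <;> rw [y1] at h1 ⊢
    · constructor
      · linarith
      · intro h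
        have h5 : τ * (√3 - 1) = 0 := by linarith
        have hτ' : τ = 0 := by
          rcases mul_eq_zero.1 h5 with h6 | h6
          · exact h6
          · linarith
        apply pl_ext
        · rw [z0, x2, hτ']; simp [c]
        · rw [z1, y2, hτ']; simp [c]
    · exfalso; linarith
    · exfalso; linarith
    · exfalso; linarith
  · rw [z0, mul_zero] at h0
    linarith

/-- No terminal is in the relative interior of a segment contained in the second tree. -/
lemma not_interior (q : Bool × Fin 4) {x y : Pl} (hxy : x ≠ y) (h : segment ℝ x y ⊆ TT)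
    (hq : a q ∈ openSegment ℝ x y) : False := by
  rcases q with ⟨k, j⟩
  obtain ⟨α, β, hα, hβ, hαβ, hz⟩ := hq
  cases k
  · -- the corners
    simp only [a, Bool.false_eq_true, if_false] at hz
    set d : Pl := y - x with hd
    have hd0 : d ≠ 0 := sub_ne_zero.2 hxy.symm
    obtain ⟨τ, hτ0, hτα, hτβ, hτd⟩ : ∃ τ : ℝ, 0 < τ ∧ τ ≤ α ∧ τ ≤ β ∧ τ * ‖d‖ ≤ 1 / 2 := by
      have hn : 0 < ‖d‖ := norm_pos_iff.2 hd0
      refine ⟨min (min α β) (1 / (2 * ‖d‖)), lt_min (lt_min hα hβ) (by positivity),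
        (min_le_left _ _).trans (min_le_left _ _), (min_le_left _ _).trans (min_le_right _ _), ?_⟩
      calc min (min α β) (1 / (2 * ‖d‖)) * ‖d‖ ≤ (1 / (2 * ‖d‖)) * ‖d‖ := by
            gcongr
            exact min_le_right _ _
        _ = 1 / 2 := by field_simp
    have hplus : c j + τ • d ∈ TT := by
      apply h
      refine ⟨α - τ, β + τ, by linarith, by linarith, by linarith, ?_⟩
      rw [← hz, hd, sub_smul, add_smul, smul_sub]
      abel
    have hminus : c j - τ • d ∈ TT := by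
      apply h
      refine ⟨α + τ, β - τ, by linarith, by linarith, by linarith, ?_⟩
      rw [← hz, hd, sub_smul, add_smul, smul_sub]
      abel
    have hcoord : ∀ k : Fin 2, |τ * d k| ≤ 1 / 2 := by
      intro k
      have h2 : |d k| ≤ ‖d‖ := by
        have := PiLp.norm_apply_le d k
        rwa [Real.norm_eq_abs] at this
      rw [abs_mul, abs_of_pos hτ0]
      exact (mul_le_mul_of_nonneg_left h2 hτ0.le).trans hτd
    have g1 := s3_gt
    have b0 : |sx j * (τ * d 0)| ≤ 1 / 2 := by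
      have h2 : |(sx j : ℝ)| = 1 := by fin_cases j <;> simp [sx]
      rw [abs_mul, h2, one_mul]
      exact hcoord 0
    have b1 : |sy j * (τ * d 1)| ≤ 1 / 2 := by
      rw [abs_mul, sy_abs, one_mul]
      exact hcoord 1
    obtain ⟨b0a, b0b⟩ := abs_le.1 b0
    obtain ⟨b1a, b1b⟩ := abs_le.1 b1
    have c0 : sx j * (c j) 0 = √3 := by
      simp only [c, pt_zero]
      linear_combination √3 * sx_sq j
    have c1 : sy j * (c j) 1 = √3 := by
      simp only [c, pt_one]
      linear_combination √3 * sy_sq j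
    have p0 : sx j * (c j + τ • d) 0 = √3 + sx j * (τ * d 0) := by
      rw [PiLp.add_apply, PiLp.smul_apply, smul_eq_mul, mul_add, c0]
    have p1 : sy j * (c j + τ • d) 1 = √3 + sy j * (τ * d 1) := by
      rw [PiLp.add_apply, PiLp.smul_apply, smul_eq_mul, mul_add, c1]
    have m0 : sx j * (c j - τ • d) 0 = √3 - sx j * (τ * d 0) := by
      rw [PiLp.sub_apply, PiLp.smul_apply, smul_eq_mul, mul_sub, c0]
    have m1 : sy j * (c j - τ • d) 1 = √3 - sy j * (τ * d 1) := by
      rw [PiLp.sub_apply, PiLp.smul_apply, smul_eq_mul, mul_sub, c1]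
    have n1 := near_c j hplus (by rw [p0]; linarith) (by rw [p1]; linarith)
    have n2 := near_c j hminus (by rw [m0]; linarith) (by rw [m1]; linarith)
    rw [p0, p1] at n1
    rw [m0, m1] at n2
    have h5 := n1.2 (by linarith [n1.1, n2.1])
    have h6 : τ • d = 0 := by
      have := congrArg (fun z => z - c j) h5
      simpa using this
    exact (smul_ne_zero hτ0.ne' hd0) h6
  · -- the end points of the arms
    simp only [a, if_true] at hz
    have hx := expose j (h (left_mem_segment ℝ x y))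
    have hy := expose j (h (right_mem_segment ℝ x y))
    have hin : ⟪e j, w j⟫ = α * ⟪e j, x⟫ + β * ⟪e j, y⟫ := by
      rw [← hz, inner_add_right, inner_smul_right, inner_smul_right]
    have e0 : α * (⟪e j, w j⟫ - ⟪e j, x⟫) + β * (⟪e j, w j⟫ - ⟪e j, y⟫) = 0 := by
      linear_combination ⟪e j, w j⟫ * hαβ + hin
    have p1 := mul_nonneg hα.le (sub_nonneg.2 hx.1)
    have p2 := mul_nonneg hβ.le (sub_nonneg.2 hy.1)
    have e1 : ⟪e j, x⟫ = ⟪e j, w j⟫ := by
      have q1 : α * (⟪e j, w j⟫ - ⟪e j, x⟫) = 0 := by linarith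
      rcases mul_eq_zero.1 q1 with q2 | q2
      · exact absurd q2 hα.ne'
      · linarith
    have e2 : ⟪e j, y⟫ = ⟪e j, w j⟫ := by
      have q1 : β * (⟪e j, w j⟫ - ⟪e j, y⟫) = 0 := by linarith
      rcases mul_eq_zero.1 q1 with q2 | q2
      · exact absurd q2 hβ.ne'
      · linarith
    exact hxy ((hx.2 e1).trans (hy.2 e2).symm)

lemma TS_ne_TT : TS ≠ TT := by
  intro h
  have h1 : s 0 ∈ TT := by
    rw [← h]
    exact Or.inr (left_mem_segment ℝ _ _)
  have g1 := s3_gt
  have hs0 : (s 0) 0 = -(√3 - 1) := by simp [s, sx]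
  have hs1 : (s 0) 1 = 0 := by simp [s]
  rcases mem_TT h1 with ⟨i, τ, ⟨hτ0, hτ1⟩, z0, z1⟩ | ⟨i, τ, ⟨hτ0, hτ1⟩, z0, z1⟩ | ⟨z0, z1⟩
  · rw [hs1] at z1
    have h2 : (sy i : ℝ) ≠ 0 := by
      intro h3
      have := sy_sq i
      rw [h3] at this
      norm_num at this
    have h3 : 0 < √3 + τ * √3 / 2 := by positivity
    exact (mul_ne_zero h2 h3.ne') z1.symm
  · rw [hs1] at z1
    have h2 : (sy i : ℝ) ≠ 0 := by
      intro h3
      have := sy_sq i
      rw [h3] at this
      norm_num at this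
    have h3 : 0 < √3 - τ / 2 := by linarith
    exact (mul_ne_zero h2 h3.ne') z1.symm
  · rw [hs0] at z0
    linarith

/-! ### The terminals are distinct -/

lemma corner_inj {i j : Fin 4} (hx : 0 < (sx i : ℝ) * sx j) (hy : 0 < (sy i : ℝ) * sy j) :
    i = j := by
  have hx' : 0 < sx i * sx j := by exact_mod_cast hx
  have hy' : 0 < sy i * sy j := by exact_mod_cast hy
  clear hx hy
  revert i j
  decide

lemma a_coord (q : Bool × Fin 4) : ∃ α β : ℝ, 1 < α ∧ 1 < β ∧ (a q) 0 = sx q.2 * α ∧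
    (a q) 1 = sy q.2 * β ∧ α = √3 + (if q.1 then 1 / 200 else 0) := by
  have g1 := s3_gt
  rcases q with ⟨k, i⟩
  cases k
  · exact ⟨√3, √3, by linarith, by linarith, by simp [a, c], by simp [a, c], by simp⟩
  · refine ⟨√3 + 1 / 200, √3 + √3 / 200, by linarith, by linarith, ?_, ?_, by simp⟩
    · simp [a, w, c, e]; ring
    · simp [a, w, c, e]; ring

lemma y_coord (q : Bool × Fin 4) : ∃ α β : ℝ, 1 < α ∧ 1 < β ∧ (y q) 0 = sx q.2 * α ∧
    (y q) 1 = sy q.2 * β ∧ α = √3 + (if q.1 then 11 / 2000 else 1 / (1000 * √2)) := by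
  have g1 := s3_gt
  have g2 := s2_pos
  rcases q with ⟨k, i⟩
  cases k
  · refine ⟨√3 + 1 / (1000 * √2), √3 - 1 / (1000 * √2), ?_, ?_, ?_, ?_, by simp⟩
    · have : 0 < 1 / (1000 * √2) := by positivity
      linarith
    · have h1 : 1 / (1000 * √2) ≤ 1 / 1000 := by
        apply one_div_le_one_div_of_le (by norm_num)
        have : (1 : ℝ) ≤ √2 := by
          rw [Real.one_le_sqrt]; norm_num
        linarith
      linarith
    · simp [y, c, n]; field_simp
    · simp [y, c, n]; field_simp; ring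
  · refine ⟨√3 + 11 / 2000, √3 + 11 * √3 / 2000, by linarith, by linarith, ?_, ?_, by simp⟩
    · simp [y, w, c, e]; ring
    · simp [y, w, c, e]; ring

lemma inj_of {f : Bool × Fin 4 → Pl} {u v : ℝ} (huv : u ≠ v)
    (hf : ∀ q, ∃ α β : ℝ, 1 < α ∧ 1 < β ∧ (f q) 0 = sx q.2 * α ∧ (f q) 1 = sy q.2 * β ∧
      α = √3 + (if q.1 then u else v)) : Function.Injective f := by
  intro q q' h
  obtain ⟨α, β, hα, hβ, h0, h1, h2⟩ := hf q
  obtain ⟨α', β', hα', hβ', h0', h1', h2'⟩ := hf q'
  rw [h] at h0 h1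
  have e0 : (sx q.2 : ℝ) * α = sx q'.2 * α' := h0.symm.trans h0'
  have e1 : (sy q.2 : ℝ) * β = sy q'.2 * β' := h1.symm.trans h1'
  have x1 : 0 < (sx q.2 : ℝ) * sx q'.2 := by
    have k : (sx q.2 : ℝ) * sx q'.2 * α = α' := by
      linear_combination (sx q'.2 : ℝ) * e0 + α' * sx_sq q'.2
    by_contra hc
    push Not at hc
    nlinarith
  have y1 : 0 < (sy q.2 : ℝ) * sy q'.2 := by
    have k : (sy q.2 : ℝ) * sy q'.2 * β = β' := by
      linear_combination (sy q'.2 : ℝ) * e1 + β' * sy_sq q'.2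
    by_contra hc
    push Not at hc
    nlinarith
  have hi := corner_inj x1 y1
  rw [hi] at e0
  have hne : (sx q'.2 : ℝ) ≠ 0 := by
    intro h3
    have := sx_sq q'.2
    rw [h3] at this
    norm_num at this
  have e2 : α = α' := mul_left_cancel₀ hne e0
  rw [h2, h2'] at e2
  have e3 : (if q.1 then u else v) = (if q'.1 then u else v) := by linarith
  rcases q with ⟨k, i⟩
  rcases q' with ⟨k', i'⟩
  simp only at hi e3
  subst hi
  cases k <;> cases k' <;> simp at e3 ⊢
  · exact huv e3.symm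
  · exact huv e3

lemma a_inj : Function.Injective a := inj_of (by norm_num) a_coord

lemma y_inj : Function.Injective y := by
  refine inj_of ?_ y_coord
  intro h
  have h2 : √2 * √2 = 2 := Real.mul_self_sqrt (by norm_num)
  have g2 := s2_pos
  rw [div_eq_div_iff (by norm_num) (by positivity)] at h
  nlinarith

end Pool.Agent.U331.ST
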